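import Pool.Agent.Helper54.DT.StmtsS

set_option autoImplicit false

/-!
MP_47b99f_lc, module ISM: the matrices of the semidefinite program are symmetric matrices of affine
functions.
-/

namespace Pool.Agent.Helper30.DCT

open Finset Pool.Agent.Helper54.ETR Pool.Agent.Helper54.Poly Pool.Agent.Helper54.DT

theorem ism_map (N : ℕ) (G : ℕ → ℕ → Term) (hd : ∀ i j, (G i j).deg ∅ ≤ 1)
    (hs : ∀ i j (x : ℕ → ℝ), (G i j).eval x = (G j i).eval x) :
    IsMat ((List.range N).map fun i => (List.range N).map fun j => G i j) := by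
  have hent : ∀ i j, ent ((List.range N).map fun i => (List.range N).map fun j => G i j) i j
      = if i < N ∧ j < N then G i j else Term.zero := by
    intro i j
    unfold ent
    by_cases hi : i < N
    · by_cases hj : j < N
      · simp [List.getD_eq_getElem?_getD, hi, hj]
      · simp [List.getD_eq_getElem?_getD, hi, hj]
    · simp [List.getD_eq_getElem?_getD, hi]
  refine ⟨?_, ?_⟩
  · intro r hr
    rw [List.mem_map] at hr
    obtain ⟨i, -, rfl⟩ := hr
    refine ⟨by simp, ?_⟩
    intro t ht
    rw [List.mem_map] at ht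
    obtain ⟨j, -, rfl⟩ := ht
    exact hd i j
  · intro i j x
    rw [hent, hent]
    by_cases hi : i < N
    · by_cases hj : j < N
      · simp only [hi, hj, and_self, if_true]
        exact hs i j x
      · simp only [hi, hj, and_false, false_and, if_false]
    · by_cases hj : j < N
      · simp only [hi, hj, and_false, false_and, if_false]
      · simp only [hi, hj, and_self, if_false]

theorem ism_one (t : Term) (ht : t.deg ∅ ≤ 1) : IsMat [[t]] := by
  have h := ism_map 1 (fun _ _ => t) (fun _ _ => ht) (fun _ _ _ => rfl)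
  exact h

theorem ism_eqn (t : Term) (ht : t.deg ∅ ≤ 1) (B : List (List Term)) (hB : B ∈ eqn oT t) :
    IsMat B := by
  unfold eqn at hB
  simp only [List.mem_cons, List.not_mem_nil, or_false] at hB
  rcases hB with rfl | rfl
  · exact ism_one t ht
  · refine ism_one _ ?_
    change max 0 (t.deg ∅) ≤ 1
    omega

theorem ism_var (i : ℕ) : (oT.var i).deg ∅ = 1 := by
  change (Term.var i).deg ∅ = 1
  simp [Term.deg]

theorem ism_add (s t : Term) : (oT.add s t).deg ∅ = max (s.deg ∅) (t.deg ∅) := rfl

theorem ism_sub (s t : Term) : (oT.sub s t).deg ∅ = max (s.deg ∅) (t.deg ∅) := rfl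

theorem ism_mul (s t : Term) : (oT.mul s t).deg ∅ = s.deg ∅ + t.deg ∅ := rfl

theorem ism_zero : (oT.zero).deg ∅ = 0 := rfl

theorem ism_onet : (oT.one).deg ∅ = 0 := rfl

theorem ism_sum (l : List Term) (hl : ∀ t ∈ l, t.deg ∅ ≤ 1) : (sumO oT l).deg ∅ ≤ 1 := by
  unfold sumO
  induction l with
  | nil => exact Nat.zero_le 1
  | cons a l ih =>
    rw [List.foldr_cons, ism_add]
    have h1 := hl a (List.mem_cons_self)
    have h2 := ih (fun t ht => hl t (List.mem_cons_of_mem _ ht))
    omega

theorem ism_linE (M : ℕ) (e : ℕ → Term) (v : ℕ → ℕ) (he : ∀ m, (e m).deg ∅ = 0) :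
    (linE oT M e v).deg ∅ ≤ 1 := by
  unfold linE
  refine ism_sum _ ?_
  intro t ht
  rw [List.mem_map] at ht
  obtain ⟨m, -, rfl⟩ := ht
  rw [ism_mul, ism_var, he]

theorem ism_objE (M : ℕ) (S : ℕ → ℕ → ℕ → Term) (h : ℕ) (hS : ∀ a b c, (S a b c).deg ∅ = 0) :
    (objE oT M S h).deg ∅ ≤ 1 := by
  unfold objE
  refine ism_sum _ ?_
  intro t ht
  simp only [List.mem_flatMap, List.mem_map] at ht
  obtain ⟨a, -, b, -, c, -, rfl⟩ := ht
  rw [ism_mul, ism_var, hS]

theorem ism_locd (M R : ℕ) (E : ℕ → ℕ → Term) (tg : ℕ → Bool) (S : ℕ → ℕ → ℕ → Term)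
    (h a α b β : ℕ) (hE : ∀ r m, (E r m).deg ∅ = 0) (hS : ∀ a b c, (S a b c).deg ∅ = 0) :
    (locE oT M R E tg S h a α b β).deg ∅ ≤ 1 := by
  unfold locE
  rw [ism_add]
  refine max_le (ism_sum _ ?_) (ism_sum _ ?_)
  · intro t ht
    rw [List.mem_map] at ht
    obtain ⟨c, -, rfl⟩ := ht
    rw [ism_mul, ism_add, ism_var, ism_var, hS]
    omega
  · intro t ht
    rw [List.mem_map] at ht
    obtain ⟨r, -, rfl⟩ := ht
    split_ifs
    · rw [ism_add, ism_mul, ism_mul, ism_var, ism_var, hE, hE]
      omega
    · exact Nat.zero_le 1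

theorem ism_sumev (x : ℕ → ℝ) (N : ℕ) (f g : ℕ → Term) (hfg : ∀ i, (f i).eval x = (g i).eval x) :
    (sumO oT ((List.range N).map f)).eval x = (sumO oT ((List.range N).map g)).eval x := by
  unfold sumO
  obtain ⟨l, hl⟩ : ∃ l, l = List.range N := ⟨_, rfl⟩
  rw [← hl]
  clear hl
  induction l with
  | nil => rfl
  | cons a l ih =>
    rw [List.map_cons, List.map_cons, List.foldr_cons, List.foldr_cons]
    change (f a).eval x + _ = (g a).eval x + _
    rw [hfg a]
    exact congrArg _ ih

theorem ism_loce (M R : ℕ) (E : ℕ → ℕ → Term) (tg : ℕ → Bool) (S : ℕ → ℕ → ℕ → Term)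
    (h a α b β : ℕ) (x : ℕ → ℝ)
    (hs : ∀ a b c (x : ℕ → ℝ), (S a b c).eval x = (S b a c).eval x) :
    (locE oT M R E tg S h a α b β).eval x = (locE oT M R E tg S h b β a α).eval x := by
  unfold locE
  change _ + _ = _ + _
  refine congrArg₂ _ ?_ ?_
  · refine ism_sumev x M _ _ ?_
    intro c
    change (S a b c).eval x * (x (vy h c α β) + x (vy h c β α))
      = (S b a c).eval x * (x (vy h c β α) + x (vy h c α β))
    rw [hs a b c x, add_comm]
  · refine ism_sumev x R _ _ ?_
    intro r
    cases tg r
    · rfl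
    · change (E r a).eval x * x (vL h r α b β) + (E r b).eval x * x (vL h r β a α)
        = (E r b).eval x * x (vL h r β a α) + (E r a).eval x * x (vL h r α b β)
      rw [add_comm]

theorem ism_two (a b : ℕ) : IsMat [[oT.var a, oT.one], [oT.one, oT.var b]] := by
  have h := ism_map 2 (fun i j => if i = 0 then (if j = 0 then oT.var a else oT.one) else
    (if j = 0 then oT.one else oT.var b)) (by
      intro i j
      split_ifs
      · rw [ism_var]
      · exact Nat.zero_le 1
      · exact Nat.zero_le 1
      · rw [ism_var]) (by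
      intro i j x
      by_cases hi : i = 0
      · by_cases hj : j = 0
        · simp only [hi, hj]
        · simp only [hi, hj, if_true, if_false]
      · by_cases hj : j = 0
        · simp only [hi, hj, if_true, if_false]
        · simp only [hi, hj, if_false])
  exact h

theorem st_ISM : ST_ISM := by
  intro M R E kd tg S md h hE hS hs B hB
  unfold half at hB
  simp only [List.mem_append] at hB
  rcases hB with (((((((((hB | hB) | hB) | hB) | hB) | hB) | hB) | hB) | hB) | hB) | hB
  · refine ism_eqn _ ?_ B hB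
    rw [ism_sub, ism_var, ism_onet]
    omega
  · simp only [List.mem_flatMap, List.mem_cons, List.not_mem_nil, or_false] at hB
    obtain ⟨a, -, b, -, c, -, hB⟩ := hB
    rcases hB with rfl | rfl
    · refine ism_one _ ?_
      rw [ism_sub, ism_var, ism_var]
      omega
    · refine ism_one _ ?_
      rw [ism_sub, ism_var, ism_var]
      omega
  · rw [List.mem_singleton] at hB
    subst hB
    refine ism_map M _ ?_ ?_
    · intro i j
      rw [ism_add, ism_var, ism_var]
      omega
    · intro i j x
      change x (vy h 0 i j) + x (vy h 0 j i) = x (vy h 0 j i) + x (vy h 0 i j)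
      rw [add_comm]
  · rw [List.mem_flatMap] at hB
    obtain ⟨r, -, hB⟩ := hB
    split_ifs at hB
    · simp only [List.mem_flatMap] at hB
      obtain ⟨a, -, b, -, hB⟩ := hB
      exact ism_eqn _ (ism_linE M (E r) _ (hE r)) B hB
    · exact absurd hB List.not_mem_nil
  · rw [List.mem_flatMap] at hB
    obtain ⟨r, -, hB⟩ := hB
    split_ifs at hB
    · exact absurd hB List.not_mem_nil
    · rw [List.mem_singleton] at hB
      subst hB
      exact ism_one _ (ism_linE M (E r) _ (hE r))
  · rw [List.mem_flatMap] at hB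
    obtain ⟨r, -, hB⟩ := hB
    split_ifs at hB
    · simp only [List.mem_flatMap] at hB
      obtain ⟨a, -, b, -, hB⟩ := hB
      exact ism_eqn _ (ism_linE M (E r) _ (hE r)) B hB
    · exact absurd hB List.not_mem_nil
  · rw [List.mem_singleton] at hB
    subst hB
    refine ism_map ((M - 1) * M) _ ?_ ?_
    · intro i j
      exact ism_locd M R E tg S h _ _ _ _ hE hS
    · intro i j x
      exact ism_loce M R E tg S h _ _ _ _ x hs
  · refine ism_eqn _ ?_ B hB
    rw [ism_sub, ism_var, ism_onet]
    omega
  · rw [List.mem_flatMap] at hB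
    obtain ⟨r, -, hB⟩ := hB
    have hlin := ism_linE M (E r) (vX h) (hE r)
    split_ifs at hB
    · exact ism_eqn _ hlin B hB
    · simp only [List.mem_cons, List.not_mem_nil, or_false] at hB
      rcases hB with rfl | rfl
      · refine ism_one _ ?_
        rw [ism_sub, ism_var]
        omega
      · exact ism_one _ hlin
    · rw [List.mem_singleton] at hB
      subst hB
      exact ism_one _ hlin
  · rw [List.mem_singleton] at hB
    subst hB
    exact ism_two _ _
  · have hobj := ism_objE M S h hS
    split_ifs at hB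
    · rw [List.mem_singleton] at hB
      subst hB
      refine ism_one _ ?_
      rw [ism_sub, ism_sub, ism_var, ism_zero]
      omega
    · rw [List.mem_cons] at hB
      rcases hB with rfl | hB
      · refine ism_one _ ?_
        rw [ism_sub, ism_zero]
        omega
      · rw [List.mem_flatMap] at hB
        obtain ⟨a, -, hB⟩ := hB
        refine ism_eqn _ ?_ B hB
        rw [ism_sub, ism_var, ism_var]
        omega

end Pool.Agent.Helper30.DCT
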